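import Pool.Agent.V11212.XI.SimpPoset

set_option autoImplicit false

namespace Pool.Agent.Results.MP_c44c69_co.FormulaFails

open Pool.Agent.V11212.XI Pool.Agent.Results.MP_19f4d1_co.CyclicOrderFour

/-- For every nice group `G` whose order is not a prime (for instance `ℤ/4`) there are finite free
`G`-simplicial posets `P`, `Q` with `Xind (P × Q) < min (Xind P) (Xind Q)`. -/
theorem result :
    (∀ (G : Type) [Group G] [Fintype G], IsNice G → ¬ (Nat.card G).Prime →
      ∃ (P Q : Type) (_ : Fintype P) (_ : Fintype Q) (_ : PartialOrder P) (_ : PartialOrder Q)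
        (_ : MulAction G P) (_ : MulAction G Q),
        IsSimplicialPoset P ∧ IsSimplicialPoset Q ∧
        (∀ (g : G) (p q : P), p ≤ q → g • p ≤ g • q) ∧
        (∀ (g : G) (p q : Q), p ≤ q → g • p ≤ g • q) ∧
        (∀ (g : G) (p : P), g • p = p → g = 1) ∧ (∀ (g : G) (q : Q), g • q = q → g = 1) ∧
        ∃ a b c, IsLeast {k | CrossLe G P k} a ∧ IsLeast {k | CrossLe G Q k} b ∧
          IsLeast {k | CrossLe G (P × Q) k} c ∧ c < min a b) ∧
      IsNice (Multiplicative (ZMod 4)) ∧ ¬ (Nat.card (Multiplicative (ZMod 4))).Prime := by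
  have hcard : Nat.card (Multiplicative (ZMod 4)) = 4 := by
    rw [Nat.card_eq_fintype_card]; rfl
  refine ⟨fun G _ _ hG hn => ?_, Or.inl ⟨2, 2, Nat.prime_two, by norm_num, ?_, ?_⟩, ?_⟩
  · obtain ⟨X, Y, h1, h2, h3⟩ := hed hG hn
    exact ⟨X.Face, Y.Face, inferInstance, inferInstance, inferInstance, inferInstance,
      inferInstance, inferInstance, face_simplicial X, face_simplicial Y, X.smul_mono,
      Y.smul_mono, h1, h2, h3⟩
  · infer_instance
  · rw [hcard]; norm_num
  · rw [hcard]; norm_num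

end Pool.Agent.Results.MP_c44c69_co.FormulaFails
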